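import Pool.Agent.Q74.BT.Stm6
import Pool.Agent.Q74.BT.FinB
import Pool.Agent.Q224.BT.MeanP

/-!
# Project BT (helper74), part 6: job MeanAll, the mean number of values in windows
-/

set_option autoImplicit false

namespace Pool.Agent.Q177.BT

open Finset
open Pool.Agent.Q158.Pair (T)
open Pool.Agent.Q74.AR (oc oc_per)
open Pool.Agent.Q74.KP (EE Pe EE_nonneg)
open Pool.Agent.Q74.BL (nx T_add)
open Pool.Agent.Q74.BT
open Pool.Agent.Q224.BT (sum_per_abs)

/-! ### the levels with small offset -/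

theorem LSg_per (L t : ℕ) : Pe t (fun x => ((LSg L t x).card : ℝ)) := by
  intro x y
  have h1 : ∀ i : ℕ, x + 2 ^ t * y + (i : ℤ) = (x + i) + 2 ^ t * y := fun i => by ring
  have h2 : LSg L t (x + 2 ^ t * y) = LSg L t x := by
    unfold LSg
    have h3 : ∀ i : ℕ, (|(T^[t] (x + 2 ^ t * y + i) : ℝ) - 3 ^ oc t (x + 2 ^ t * y + i) * ((x + 2 ^ t * y : ℤ) : ℝ) / 2 ^ t| ≤
        3 ^ oc t (x + 2 ^ t * y + i) / 8) ↔ (|(T^[t] (x + i) : ℝ) - 3 ^ oc t (x + i) * (x : ℝ) / 2 ^ t| ≤ 3 ^ oc t (x + i) / 8) := by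
      intro i
      rw [h1, oc_per, T_add]
      have e : ((T^[t] (x + i) + 3 ^ oc t (x + i) * y : ℤ) : ℝ) - 3 ^ oc t (x + i) * ((x + 2 ^ t * y : ℤ) : ℝ) / 2 ^ t =
          (T^[t] (x + i) : ℝ) - 3 ^ oc t (x + i) * (x : ℝ) / 2 ^ t := by
        push_cast
        field_simp
        ring
      rw [e]
    simp only [h3]
    congr 1
    funext i
    rw [h1, oc_per]
  simp only [h2]

theorem LSg_le (L t : ℕ) (n : ℤ) (hn : (2 : ℤ) ^ t ≤ |n|) : (LSg L t n).card ≤ Vn L t n := by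
  classical
  have hnr : (2 : ℝ) ^ t ≤ |(n : ℝ)| := by exact_mod_cast hn
  have h2 : (0 : ℝ) < 2 ^ t := by positivity
  obtain ⟨ν, hν⟩ : ∃ ν : ℝ, ν = n / 2 ^ t := ⟨_, rfl⟩
  have hν1 : 1 ≤ |ν| := by
    rw [hν, abs_div, abs_of_pos h2, le_div_iff₀ h2]
    linarith
  -- a representative of each level
  have hex : ∀ y ∈ LSg L t n, ∃ j : ℕ, j < L ∧ (oc t (n + j) : ℤ) = y ∧
      |(T^[t] (n + j) : ℝ) - 3 ^ oc t (n + j) * ν| ≤ 3 ^ oc t (n + j) / 8 := by
    intro y hy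
    unfold LSg at hy
    obtain ⟨j, hj, rfl⟩ := mem_image.1 hy
    rw [mem_filter, mem_range] at hj
    refine ⟨j, hj.1, rfl, ?_⟩
    rw [hν, ← mul_div_assoc]
    exact hj.2
  have hlt : ∀ j j' : ℕ, |(T^[t] (n + j) : ℝ) - 3 ^ oc t (n + j) * ν| ≤ 3 ^ oc t (n + j) / 8 →
      |(T^[t] (n + j') : ℝ) - 3 ^ oc t (n + j') * ν| ≤ 3 ^ oc t (n + j') / 8 → oc t (n + j) < oc t (n + j') →
      T^[t] (n + j) ≠ T^[t] (n + j') := by
    intro j j' h1 h2 hlt heq
    obtain ⟨a, ha⟩ : ∃ a : ℝ, a = 3 ^ oc t (n + j) := ⟨_, rfl⟩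
    obtain ⟨b, hb⟩ : ∃ b : ℝ, b = 3 ^ oc t (n + j') := ⟨_, rfl⟩
    have ha0 : 0 < a := by rw [ha]; positivity
    have hab : 3 * a ≤ b := by
      rw [ha, hb]
      have : (3 : ℝ) ^ (oc t (n + j) + 1) ≤ 3 ^ oc t (n + j') := pow_le_pow_right₀ (by norm_num) hlt
      rw [pow_succ] at this
      linarith
    rw [← heq, ← hb] at h2
    rw [← ha] at h1
    obtain ⟨v, hv⟩ : ∃ v : ℝ, v = (T^[t] (n + j) : ℝ) := ⟨_, rfl⟩
    rw [← hv] at h1 h2
    have h3 : |b * ν - a * ν| ≤ a / 8 + b / 8 := by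
      have e : b * ν - a * ν = (v - a * ν) - (v - b * ν) := by ring
      rw [e]
      exact (abs_sub _ _).trans (add_le_add h1 h2)
    rw [← sub_mul, abs_mul, abs_of_nonneg (by linarith)] at h3
    have h4 : (b - a) * 1 ≤ (b - a) * |ν| := mul_le_mul_of_nonneg_left hν1 (by linarith)
    linarith
  choose! f hf1 hf2 hf3 using hex
  unfold Vn
  refine card_le_card_of_injOn (fun y => T^[t] (n + (f y : ℕ))) ?_ ?_
  · intro y hy
    exact mem_coe.2 (mem_image.2 ⟨f y, mem_range.2 (hf1 y (mem_coe.1 hy)), rfl⟩)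
  · intro y hy y' hy' heq
    have hy1 := mem_coe.1 hy
    have hy2 := mem_coe.1 hy'
    by_contra hne
    have hne2 : oc t (n + (f y : ℕ)) ≠ oc t (n + (f y' : ℕ)) := by
      intro h
      apply hne
      rw [← hf2 y hy1, ← hf2 y' hy2, h]
    rcases lt_or_gt_of_ne hne2 with h | h
    · exact hlt _ _ (hf3 y hy1) (hf3 y' hy2) h heq
    · exact hlt _ _ (hf3 y' hy2) (hf3 y hy1) h heq.symm

/-! ### the main term -/

theorem sq_lo {a b t : ℝ} (ha : 0 ≤ a) (hab : a ≤ b) (hb : b ≤ t) (ht : 0 < t) :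
    (b - a) / (2 * √t) ≤ √(t - a) - √(t - b) := by
  have h0 : 0 < √t := Real.sqrt_pos.2 ht
  have h1 : √(t - b) ≤ √(t - a) := Real.sqrt_le_sqrt (by linarith)
  have h2 : √(t - a) ≤ √t := Real.sqrt_le_sqrt (by linarith)
  have h3 : √(t - a) * √(t - a) = t - a := Real.mul_self_sqrt (by linarith)
  have h4 : √(t - b) * √(t - b) = t - b := Real.mul_self_sqrt (by linarith)
  rw [div_le_iff₀ (by positivity)]
  nlinarith

theorem sq_hi {a b t : ℝ} (hab : a ≤ b) (hb : b < t) :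
    √(t - a) - √(t - b) ≤ (b - a) / (2 * √(t - b)) := by
  have h0 : 0 < √(t - b) := Real.sqrt_pos.2 (by linarith)
  have h1 : √(t - b) ≤ √(t - a) := Real.sqrt_le_sqrt (by linarith)
  have h3 : √(t - a) * √(t - a) = t - a := Real.mul_self_sqrt (by linarith)
  have h4 : √(t - b) * √(t - b) = t - b := Real.mul_self_sqrt (by linarith)
  rw [le_div_iff₀ (by positivity)]
  nlinarith

theorem kap_pos : 0 < kap := by
  unfold kap
  have h2 : 0 < Real.log 2 := Real.log_pos (by norm_num)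
  have h3 : 0 < Real.log 3 := Real.log_pos (by norm_num)
  have h34 : Real.log 3 < 2 * Real.log 2 := by
    have e : 2 * Real.log 2 = Real.log 4 := by
      have : (4 : ℝ) = 2 ^ 2 := by norm_num
      rw [this, Real.log_pow]
      norm_num
    rw [e]
    exact Real.log_lt_log (by norm_num) (by norm_num)
  rw [sub_pos, lt_div_iff₀ h3]
  linarith

theorem DD_kap (h0 : S_Mono) {γ : ℝ} (hγ : IsG γ) : DD γ = kap * (γ - 1 / Real.log 2) := by
  obtain ⟨-, -, -, -, -, -, -, -, hxx, -, -, hDD⟩ := h0 γ hγ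
  have hγ0 : 0 < γ := by linarith [hγ.1]
  rw [hDD, hxx γ hγ0]
  unfold kap
  have h2 : 0 < Real.log 2 := Real.log_pos (by norm_num)
  have h3 : 0 < Real.log 3 := Real.log_pos (by norm_num)
  field_simp
  ring

theorem diff_small {γ M₀ ε ℓ t : ℝ} (hγ : 0 < γ) (hM : 0 < M₀) (hε : 0 < ε) (hε1 : ε ≤ 1) (hℓ : 0 ≤ ℓ) (ht : 0 < t)
    (hℓM : ℓ ≤ M₀ * √t) (hb : γ * ℓ ≤ (1 - ε) * t) : ℓ / √(t - γ * ℓ) - ℓ / √t ≤ γ * M₀ ^ 2 / √(ε * t) := by
  obtain ⟨X, hX⟩ : ∃ X : ℝ, X = √t := ⟨_, rfl⟩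
  obtain ⟨Y, hY⟩ : ∃ Y : ℝ, Y = √(t - γ * ℓ) := ⟨_, rfl⟩
  obtain ⟨Z, hZ⟩ : ∃ Z : ℝ, Z = √(ε * t) := ⟨_, rfl⟩
  have hεt : 0 < ε * t := by positivity
  have hX0 : 0 < X := by rw [hX]; exact Real.sqrt_pos.2 ht
  have hZ0 : 0 < Z := by rw [hZ]; exact Real.sqrt_pos.2 hεt
  have hYZ : Z ≤ Y := by rw [hY, hZ]; exact Real.sqrt_le_sqrt (by linarith)
  have hY0 : 0 < Y := by linarith
  have hX2 : X * X = t := by rw [hX]; exact Real.mul_self_sqrt ht.le
  have hY2 : Y * Y = t - γ * ℓ := by rw [hY]; exact Real.mul_self_sqrt (by linarith)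
  have hYX : Y ≤ X := by rw [hY, hX]; exact Real.sqrt_le_sqrt (by nlinarith)
  rw [← hX, ← hY, ← hZ]
  rw [← hX] at hℓM
  have h1 : X - Y ≤ γ * M₀ := by
    have h2 : (X - Y) * X ≤ γ * M₀ * X := by
      have h3 : (X - Y) * X ≤ (X - Y) * (X + Y) := mul_le_mul_of_nonneg_left (by linarith) (by linarith)
      have h4 : (X - Y) * (X + Y) = γ * ℓ := by ring_nf; nlinarith
      have h5 : γ * ℓ ≤ γ * (M₀ * X) := mul_le_mul_of_nonneg_left hℓM hγ.le
      linarith
    exact le_of_mul_le_mul_right h2 hX0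
  have e : ℓ / Y - ℓ / X = (ℓ / X) * ((X - Y) / Y) := by field_simp
  rw [e]
  have h6 : ℓ / X ≤ M₀ := by rw [div_le_iff₀ hX0]; exact hℓM
  have h7 : (X - Y) / Y ≤ γ * M₀ / Z := by
    refine div_le_div₀ (by positivity) h1 hZ0 hYZ
  calc ℓ / X * ((X - Y) / Y) ≤ M₀ * (γ * M₀ / Z) :=
        mul_le_mul h6 h7 (div_nonneg (by linarith) hY0.le) hM.le
    _ = γ * M₀ ^ 2 / Z := by ring

/-- job MeanAll -/
theorem meanAll (h0 : S_Mono) (h1 : S_Full) (h2 : S_LowM) (h3 : S_UpM) (h4 : S_UpS) : S_MeanAll := by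
  classical
  -- the case of a small ε
  have key : ∀ γ : ℝ, IsG γ → ∀ ε : ℝ, 0 < ε → ε ≤ 1 / 2 → ∃ t₀ K : ℕ, ∀ t : ℕ, t₀ ≤ t → ∀ L : ℕ, 1 ≤ L → γ * Real.log L ≤ (1 - ε) * t →
      ∀ (M : ℤ) (W : ℕ), K * 2 ^ t ≤ W →
      |∑ n ∈ Ico M (M + W), (Vn L t n : ℝ) - MV γ L t * W| ≤ ε * (MV γ L t * W) := by
    intro γ hγ ε hε hε2
    have hl2 : 0 < Real.log 2 := Real.log_pos (by norm_num)
    have hγ0 : 0 < γ := by linarith [hγ.1]
    have hlg : 1 / Real.log 2 < γ := by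
      obtain ⟨m1, m2, -⟩ := h0 γ hγ
      linarith
    obtain ⟨D, hD⟩ : ∃ D : ℝ, D = DD γ := ⟨_, rfl⟩
    have hDk : D = kap * (γ - 1 / Real.log 2) := by rw [hD]; exact DD_kap h0 hγ
    have hk0 := kap_pos
    have hD0 : 0 < D := by
      rw [hDk]
      exact mul_pos hk0 (by linarith)
    obtain ⟨c, hc⟩ : ∃ c : ℝ, c = 2 / √Real.pi := ⟨_, rfl⟩
    have hc0 : 0 < c := by
      rw [hc]
      have := Real.pi_pos
      positivity
    -- the parameters
    obtain ⟨ε₁, hε₁⟩ : ∃ ε₁ : ℝ, ε₁ = ε / 4 := ⟨_, rfl⟩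
    have hε₁0 : 0 < ε₁ := by rw [hε₁]; positivity
    obtain ⟨lam, M₁, hlam, hM₁, t₁, hS⟩ := h4 γ hγ ε₁ hε₁0
    obtain ⟨t₂, hUM⟩ := h3 γ hγ lam ε₁ hlam hε₁0
    obtain ⟨ε₂, hε₂⟩ : ∃ ε₂ : ℝ, ε₂ = min ε (c * D * ε / 8) := ⟨_, rfl⟩
    have hε₂0 : 0 < ε₂ := by rw [hε₂]; positivity
    have hε₂1 : ε₂ ≤ ε := by rw [hε₂]; exact min_le_left _ _
    have hε₂2 : ε₂ ≤ c * D * ε / 8 := by rw [hε₂]; exact min_le_right _ _
    obtain ⟨M₂, hM₂, t₃, hLow⟩ := h2 γ hγ (1 / Real.log 2) γ ε₂ le_rfl hlg le_rfl hε₂0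
    obtain ⟨M₀, hM₀⟩ : ∃ M₀ : ℝ, M₀ = max M₁ (max M₂ (8 / (c * D * ε))) := ⟨_, rfl⟩
    have hM₀1 : M₁ ≤ M₀ := by rw [hM₀]; exact le_max_left _ _
    have hM₀2 : M₂ ≤ M₀ := by rw [hM₀]; exact (le_max_left _ _).trans (le_max_right _ _)
    have hM₀3 : 8 / (c * D * ε) ≤ M₀ := by rw [hM₀]; exact (le_max_right _ _).trans (le_max_right _ _)
    have hM₀0 : 0 < M₀ := by linarith
    obtain ⟨t₄, K₁, hFull⟩ := h1 γ hγ M₀ (ε / 2) hM₀0 (by positivity)
    obtain ⟨t₅, ht₅⟩ := exists_nat_ge ((c * D * (γ * M₀ ^ 2) * 2 / ε) ^ 2 / ε)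
    obtain ⟨K₂, hK₂⟩ := exists_nat_ge (16 / ε)
    refine ⟨t₁ ⊔ t₂ ⊔ t₃ ⊔ t₄ ⊔ t₅ ⊔ 1, K₁ ⊔ K₂, fun t ht L hL hγt M W hW => ?_⟩
    simp only [sup_le_iff] at ht
    obtain ⟨⟨⟨⟨⟨g1, g2⟩, g3⟩, g4⟩, g5⟩, g6⟩ := ht
    have ht0 : (1 : ℝ) ≤ t := by exact_mod_cast g6
    have hst : 0 < √(t : ℝ) := Real.sqrt_pos.2 (by linarith)
    have hLr : (1 : ℝ) ≤ L := by exact_mod_cast hL
    obtain ⟨ℓ, hℓ⟩ : ∃ ℓ : ℝ, ℓ = Real.log L := ⟨_, rfl⟩
    have hℓ0 : 0 ≤ ℓ := by rw [hℓ]; exact Real.log_nonneg hLr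
    rw [← hℓ] at hγt
    have hεt : 0 < ε * t := by positivity
    have hb : γ * ℓ < t := by linarith
    have hab : ℓ / Real.log 2 ≤ γ * ℓ := by
      have := mul_le_mul_of_nonneg_right hlg.le hℓ0
      have e : 1 / Real.log 2 * ℓ = ℓ / Real.log 2 := by ring
      linarith
    have ha0 : 0 ≤ ℓ / Real.log 2 := by positivity
    have hDℓ : D * ℓ = kap * (γ * ℓ - ℓ / Real.log 2) := by rw [hDk]; ring
    obtain ⟨V, hV⟩ : ∃ V : ℝ, V = MV γ L t := ⟨_, rfl⟩
    have hV1 : V = 1 + 2 * kap * c * (√(t - ℓ / Real.log 2) - √(t - γ * ℓ)) := by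
      rw [hV, MV, ← hℓ, hc]
      ring
    have hVlo : 1 + c * (D * ℓ / √t) ≤ V := by
      rw [hV1]
      have h9 := mul_le_mul_of_nonneg_left (sq_lo ha0 hab hb.le (by linarith : (0 : ℝ) < t)) (by positivity : 0 ≤ 2 * kap * c)
      have e : 2 * kap * c * ((γ * ℓ - ℓ / Real.log 2) / (2 * √t)) = c * (D * ℓ / √t) := by
        rw [hDℓ]
        field_simp
      linarith
    have hVhi : V ≤ 1 + c * (D * ℓ / √(t - γ * ℓ)) := by
      rw [hV1]
      have h9 := mul_le_mul_of_nonneg_left (sq_hi hab hb) (by positivity : 0 ≤ 2 * kap * c)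
      have h10 : 0 < √(t - γ * ℓ) := Real.sqrt_pos.2 (by linarith)
      have e : 2 * kap * c * ((γ * ℓ - ℓ / Real.log 2) / (2 * √(t - γ * ℓ))) = c * (D * ℓ / √(t - γ * ℓ)) := by
        rw [hDℓ]
        field_simp
      linarith
    have hV0 : 1 ≤ V := by
      have : 0 ≤ c * (D * ℓ / √t) := by positivity
      linarith
    have hWK : K₁ * 2 ^ t ≤ W ∧ K₂ * 2 ^ t ≤ W := by
      constructor
      · exact (Nat.mul_le_mul_right _ (le_max_left _ _)).trans hW
      · exact (Nat.mul_le_mul_right _ (le_max_right _ _)).trans hW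
    have hW0 : (0 : ℝ) ≤ W := Nat.cast_nonneg W
    have h2t : (0 : ℝ) < 2 ^ t := by positivity
    have hKW : 16 * 2 ^ t ≤ ε * W := by
      have h9 : (K₂ : ℝ) * 2 ^ t ≤ W := by exact_mod_cast hWK.2
      have h10 : 16 ≤ K₂ * ε := by rw [← div_le_iff₀ hε]; exact hK₂
      calc (16 : ℝ) * 2 ^ t ≤ K₂ * ε * 2 ^ t := mul_le_mul_of_nonneg_right h10 h2t.le
        _ = ε * (K₂ * 2 ^ t) := by ring
        _ ≤ ε * W := mul_le_mul_of_nonneg_left h9 hε.le
    rw [← hV]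
    have hVW : 0 ≤ V * W := by positivity
    rcases le_total ℓ (M₀ * √t) with hcase | hcase
    · -- case A
      have hf := (hFull t g4 L hL (by rw [← hℓ]; exact hcase) M W hWK.1).2
      rw [← hℓ, ← hc, ← hD] at hf
      have hds := diff_small hγ0 hM₀0 hε (by linarith) hℓ0 (by linarith : (0 : ℝ) < t) hcase hγt
      have hsm : c * D * (γ * M₀ ^ 2 / √(ε * t)) ≤ ε / 2 := by
        have h9 : c * D * (γ * M₀ ^ 2) * 2 / ε ≤ √(ε * t) := by
          refine Real.le_sqrt_of_sq_le ?_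
          rw [← div_le_iff₀' hε]
          exact ht₅.trans (by exact_mod_cast g5)
        rw [div_le_iff₀ hε] at h9
        rw [← mul_div_assoc, div_le_iff₀ (Real.sqrt_pos.2 hεt)]
        linarith
      have hd : |(1 + c * (D * ℓ / √t)) - V| ≤ ε / 2 := by
        have e1 : c * (D * ℓ / √(t - γ * ℓ)) - c * (D * ℓ / √t) = c * D * (ℓ / √(t - γ * ℓ) - ℓ / √t) := by ring
        have e2 := mul_le_mul_of_nonneg_left hds (by positivity : 0 ≤ c * D)
        rw [abs_le]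
        constructor <;> linarith
      have e3 : ∑ n ∈ Ico M (M + (W : ℤ)), (Vn L t n : ℝ) - V * W =
          (∑ n ∈ Ico M (M + (W : ℤ)), (Vn L t n : ℝ) - (1 + c * (D * ℓ / √t)) * W) + ((1 + c * (D * ℓ / √t)) - V) * W := by
        ring
      rw [e3]
      refine (abs_add_le _ _).trans ?_
      rw [abs_mul, abs_of_nonneg hW0]
      have e4 := mul_le_mul_of_nonneg_right hd hW0
      have e5 : ε * W ≤ ε * (V * W) := by
        refine mul_le_mul_of_nonneg_left ?_ hε.le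
        have := mul_le_mul_of_nonneg_right hV0 hW0
        linarith
      linarith
    · -- case B
      have hℓs : ℓ = ℓ / √t * √t := by field_simp
      obtain ⟨y, hy⟩ : ∃ y : ℝ, y = ℓ / √t := ⟨_, rfl⟩
      have hyM : M₀ ≤ y := by rw [hy, le_div_iff₀ hst]; exact hcase
      have hy0 : 0 < y := by linarith
      have hVy : 1 + c * (D * y) ≤ V := by
        rw [hy, ← mul_div_assoc]
        exact hVlo
      -- upper bound
      have hup : EE t (fun x => ((VV L t x).card : ℝ)) ≤ (1 + ε₁) * V := by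
        rcases le_total ℓ (lam * t) with hl | hl
        · have h9 := hS t g1 L hL (by
            rw [← hℓ]
            exact (mul_le_mul_of_nonneg_right hM₀1 hst.le).trans hcase) (by rw [← hℓ]; exact hl)
          rw [← hℓ, ← hc, ← hD] at h9
          exact h9.trans (mul_le_mul_of_nonneg_left hVlo (by linarith))
        · rw [hV]
          refine hUM t g2 L hL (by rw [← hℓ]; exact hl) ?_
          rw [← hℓ]
          refine hγt.trans ?_
          refine mul_le_mul_of_nonneg_right ?_ (by linarith)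
          linarith
      have hlow : (1 - ε / 4) * V ≤ EE t (fun x => ((LSg L t x).card : ℝ)) := by
        have h9 := hLow t g3 L hL (by
          rw [← hℓ]
          exact (mul_le_mul_of_nonneg_right hM₀2 hst.le).trans hcase) (by
          rw [← hℓ]
          refine hγt.trans ?_
          refine mul_le_mul_of_nonneg_right ?_ (by linarith)
          linarith)
        rw [← hℓ, ← hy] at h9
        have e1 : 4 * kap / √Real.pi * (√(t - 1 / Real.log 2 * ℓ) - √(t - γ * ℓ)) = V - 1 := by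
          rw [hV1, hc]
          have : 1 / Real.log 2 * ℓ = ℓ / Real.log 2 := by ring
          rw [this]
          ring
        rw [e1] at h9
        have e2 : 1 ≤ ε / 8 * (c * (D * y)) := by
          have h10 : 8 / (c * D * ε) ≤ y := hM₀3.trans hyM
          rw [div_le_iff₀ (by positivity)] at h10
          have : ε / 8 * (c * (D * y)) = y * (c * D * ε) / 8 := by ring
          rw [this]
          linarith
        have e3 : ε₂ * y ≤ ε / 8 * (c * (D * y)) := by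
          calc ε₂ * y ≤ c * D * ε / 8 * y := mul_le_mul_of_nonneg_right hε₂2 hy0.le
            _ = ε / 8 * (c * (D * y)) := by ring
        have e4 : ε / 8 * (c * (D * y)) ≤ ε / 8 * V := by
          refine mul_le_mul_of_nonneg_left ?_ (by positivity)
          linarith
        linarith
      -- sums
      have hsumV := (abs_le.1 (sum_per_abs (t := t) (h := fun x => ((VV L t x).card : ℝ)) (fun x j => by
        simp only [VV_per]) (fun x => Nat.cast_nonneg _) M W)).2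
      have hsumL := (abs_le.1 (sum_per_abs (LSg_per L t) (fun x => Nat.cast_nonneg _) M W)).1
      have hsum0 := (abs_le.1 (sum_per_abs (LSg_per L t) (fun x => Nat.cast_nonneg _) (-(2 ^ t)) (2 * 2 ^ t))).2
      have h9 : ∑ n ∈ Ico M (M + (W : ℤ)), (Vn L t n : ℝ) ≤ ∑ n ∈ Ico M (M + (W : ℤ)), ((VV L t n).card : ℝ) := by
        refine sum_le_sum fun n _ => ?_
        exact_mod_cast Vn_le L t n
      have h10 : ∑ n ∈ Ico M (M + (W : ℤ)), ((LSg L t n).card : ℝ) - ∑ n ∈ Ico (-(2 ^ t) : ℤ) (-(2 ^ t) + (2 * 2 ^ t : ℕ)), ((LSg L t n).card : ℝ) ≤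
          ∑ n ∈ Ico M (M + (W : ℤ)), (Vn L t n : ℝ) := by
        have i1 : ∑ n ∈ Ico M (M + (W : ℤ)), ((LSg L t n).card : ℝ) ≤
            ∑ n ∈ Ico M (M + (W : ℤ)), ((Vn L t n : ℝ) + if |n| < 2 ^ t then ((LSg L t n).card : ℝ) else 0) := by
          refine sum_le_sum fun n _ => ?_
          split_ifs with hn
          · have : (0 : ℝ) ≤ (Vn L t n : ℝ) := Nat.cast_nonneg _
            linarith
          · rw [add_zero]
            exact_mod_cast LSg_le L t n (not_lt.1 hn)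
        rw [sum_add_distrib, ← sum_filter] at i1
        have i2 : ∑ n ∈ (Ico M (M + (W : ℤ))).filter (fun n => |n| < 2 ^ t), ((LSg L t n).card : ℝ) ≤
            ∑ n ∈ Ico (-(2 ^ t) : ℤ) (-(2 ^ t) + (2 * 2 ^ t : ℕ)), ((LSg L t n).card : ℝ) := by
          refine sum_le_sum_of_subset_of_nonneg ?_ (fun _ _ _ => Nat.cast_nonneg _)
          intro n hn
          rw [mem_filter] at hn
          have := abs_lt.1 hn.2
          rw [mem_Ico]
          push_cast
          constructor <;> linarith [this.1, this.2]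
        linarith
      obtain ⟨E, hE⟩ : ∃ E : ℝ, E = EE t (fun x => ((LSg L t x).card : ℝ)) := ⟨_, rfl⟩
      obtain ⟨F, hF⟩ : ∃ F : ℝ, F = EE t (fun x => ((VV L t x).card : ℝ)) := ⟨_, rfl⟩
      obtain ⟨Sg, hSg⟩ : ∃ Sg : ℝ, Sg = ∑ n ∈ Ico M (M + (W : ℤ)), (Vn L t n : ℝ) := ⟨_, rfl⟩
      rw [← hE] at hsumL hsum0 hlow
      rw [← hF] at hsumV hup
      rw [← hSg] at h9 h10 ⊢
      push_cast at hsum0
      have hE0 : 0 ≤ E := by rw [hE]; exact EE_nonneg t fun x => Nat.cast_nonneg _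
      have hF0 : 0 ≤ F := by rw [hF]; exact EE_nonneg t fun x => Nat.cast_nonneg _
      rw [abs_le]
      constructor
      · -- lower
        have j1 : E * W - 4 * (E * 2 ^ t) ≤ Sg := by
          push_cast at h10
          linarith
        have j2 : E * (16 * 2 ^ t) ≤ E * (ε * W) := mul_le_mul_of_nonneg_left hKW hE0
        have j3 : E * W * (1 - ε / 4) ≤ Sg := by linarith
        have j4 : (1 - ε / 4) * V * W * (1 - ε / 4) ≤ E * W * (1 - ε / 4) :=
          mul_le_mul_of_nonneg_right (mul_le_mul_of_nonneg_right hlow hW0) (by linarith)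
        have j5 : (1 - ε) * (V * W) ≤ (1 - ε / 4) * V * W * (1 - ε / 4) := by
          have e : (1 - ε / 4) * V * W * (1 - ε / 4) = (1 - ε / 4) ^ 2 * (V * W) := by ring
          rw [e]
          refine mul_le_mul_of_nonneg_right ?_ hVW
          nlinarith
        linarith
      · -- upper
        have j1 : Sg ≤ F * W + F * 2 ^ t := by linarith
        have j2 : F * (16 * 2 ^ t) ≤ F * (ε * W) := mul_le_mul_of_nonneg_left hKW hF0
        have j3 : Sg ≤ F * W * (1 + ε / 4) := by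
          have : 0 ≤ F * (ε * W) := by positivity
          linarith
        have j4 : F * W * (1 + ε / 4) ≤ (1 + ε₁) * V * W * (1 + ε / 4) :=
          mul_le_mul_of_nonneg_right (mul_le_mul_of_nonneg_right hup hW0) (by linarith)
        have j5 : (1 + ε₁) * V * W * (1 + ε / 4) ≤ (1 + ε) * (V * W) := by
          have e : (1 + ε₁) * V * W * (1 + ε / 4) = (1 + ε / 4) ^ 2 * (V * W) := by rw [hε₁]; ring
          rw [e]
          refine mul_le_mul_of_nonneg_right ?_ hVW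
          nlinarith
        linarith
  intro γ hγ ε hε
  obtain ⟨t₀, K, h⟩ := key γ hγ (min ε (1 / 2)) (by positivity) (min_le_right _ _)
  refine ⟨t₀, K, fun t ht L hL hγt M W hW => ?_⟩
  have ht0 : (0 : ℝ) ≤ t := Nat.cast_nonneg t
  have hmin := min_le_left ε (1 / 2)
  have h9 := h t ht L hL (hγt.trans (mul_le_mul_of_nonneg_right (by linarith) ht0)) M W hW
  refine h9.trans ?_
  have h10 : 0 ≤ min ε (1 / 2) * (MV γ L t * W) := (abs_nonneg _).trans h9
  have hm : 0 < min ε (1 / 2) := by positivity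
  have h11 : 0 ≤ MV γ L t * W := by
    by_contra hc
    push Not at hc
    have := mul_neg_of_pos_of_neg hm hc
    linarith
  exact mul_le_mul_of_nonneg_right hmin h11

end Pool.Agent.Q177.BT
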