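import Pool.Agent.Q74.BT.Stm3
import Pool.Agent.Q16.BT.Pin

/-! # Project BT part 3 (helper74), job MeanPin (helper177) -/

set_option autoImplicit false

namespace Pool.Agent.Q177.BT

open Finset
open Pool.Agent.Q158.Pair (T surv nc nc_nonneg Co)
open Pool.Agent.Q74.AR (oc surv_main lim lim_erf be)
open Pool.Agent.Q74.KP (EE Erf EE_mono EE_add EE_const)
open Pool.Agent.Q74.BL (nx)
open Pool.Agent.Q74.BT Pool.Agent.Q16.BT

theorem Erf_le {x : ℝ} (hx : 0 ≤ x) : Erf x ≤ 2 / √Real.pi * x := by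
  unfold Erf
  apply mul_le_mul_of_nonneg_left _ (by positivity)
  have h1 : ∫ y in (0 : ℝ)..x, Real.exp (-y ^ 2) ≤ ∫ _y in (0 : ℝ)..x, (1 : ℝ) := by
    apply intervalIntegral.integral_mono_on hx
    · apply Continuous.intervalIntegrable
      fun_prop
    · exact intervalIntegrable_const
    · intro y _
      rw [Real.exp_le_one_iff]
      nlinarith [sq_nonneg y]
  rw [intervalIntegral.integral_const, smul_eq_mul, mul_one, sub_zero] at h1
  exact h1

theorem nc_one {z z' : ℕ × ℤ} (h : z.1 ≤ z'.1) (r : ℕ) (N : ℤ) (hne : nx r N z ≠ nx r N z') :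
    nc r (sP z z') (yP z N) = 1 := by
  rcases nc_cases r (sP z z') (yP z N) with h1 | h1
  · exact absurd (nc_eq_zero h r N h1) hne
  · exact h1

/-- one more form -/
theorem card_step (r : ℕ) (N : ℤ) (V : Finset (ℕ × ℤ)) {z₁ z₂ : ℕ × ℤ} (h1 : z₁ ∈ V)
    (h2 : z₂ ∈ V.erase z₁) (h : z₂.1 ≤ z₁.1) :
    ((V.image (nx r N)).card : ℝ) ≤ (((V.erase z₁).image (nx r N)).card : ℝ) +
      nc r (sP z₂ z₁) (yP z₂ N) := by
  have e : V.image (nx r N) = insert (nx r N z₁) ((V.erase z₁).image (nx r N)) := by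
    rw [← image_insert, insert_erase h1]
  by_cases hm : nx r N z₁ ∈ (V.erase z₁).image (nx r N)
  · rw [e, insert_eq_of_mem hm]
    have := nc_nonneg r (sP z₂ z₁) (yP z₂ N)
    linarith
  · rw [e, card_insert_of_notMem hm]
    have hne : nx r N z₂ ≠ nx r N z₁ := by
      intro h3
      exact hm (h3 ▸ mem_image_of_mem _ h2)
    rw [nc_one h r N hne]
    push_cast
    exact le_rfl

theorem t_MeanPin : S_MeanPin := by
  intro ε hε
  obtain ⟨δ, hδ, t₃, ht₃, hsurv⟩ := surv_main hε
  refine ⟨δ, hδ, t₃ + 1, fun r hr V hb R hR hlev => ?_⟩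
  have hr0 : (0 : ℝ) < r := by exact_mod_cast (by omega : 0 < r)
  have hsr : 0 < √(r : ℝ) := Real.sqrt_pos.2 hr0
  have hc0 : (0 : ℝ) < 2 / √Real.pi := by positivity
  -- the induction
  have key : ∀ (n : ℕ) (V : Finset (ℕ × ℤ)), V.card = n + 1 →
      (∀ z ∈ V, ∀ z' ∈ V, z.1 ≤ z'.1 →
        |(z'.2 : ℝ) - 3 ^ (z'.1 - z.1) * z.2| ≤ 3 ^ (z'.1 - z.1) * Real.exp (δ * r)) →
      ∀ m M : ℝ, (∀ z ∈ V, m ≤ z.1 ∧ (z.1 : ℝ) ≤ M) →
      EE r (fun N => ((V.image (nx r N)).card : ℝ)) ≤ 1 + 2 / √Real.pi * ((M - m) / √r) + ε * n := by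
    intro n
    induction n with
    | zero =>
      intro V hV _ m M hmM
      obtain ⟨z, rfl⟩ := card_eq_one.1 hV
      have h1 : ∀ N, ((({z} : Finset (ℕ × ℤ)).image (nx r N)).card : ℝ) = 1 := by
        intro N
        rw [image_singleton, card_singleton, Nat.cast_one]
      simp only [h1]
      rw [EE_const]
      have h2 := hmM z (mem_singleton_self z)
      have h3 : 0 ≤ 2 / √Real.pi * ((M - m) / √r) :=
        mul_nonneg hc0.le (div_nonneg (by linarith) hsr.le)
      simp only [Nat.cast_zero, mul_zero, add_zero]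
      linarith
    | succ n ih =>
      intro V hV hb m M hmM
      have hne : V.Nonempty := by
        rw [← card_pos]
        omega
      obtain ⟨z₁, h1, hmax⟩ := exists_max_image V (fun z => z.1) hne
      have hV' : (V.erase z₁).card = n + 1 := by
        rw [card_erase_of_mem h1]
        omega
      have hne' : (V.erase z₁).Nonempty := by
        rw [← card_pos]
        omega
      obtain ⟨z₂, h2, hmax2⟩ := exists_max_image (V.erase z₁) (fun z => z.1) hne'
      have h2' := mem_of_mem_erase h2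
      have h21 := hmax z₂ h2'
      have hI := ih (V.erase z₁) hV' (fun z hz z' hz' => hb z (mem_of_mem_erase hz) z'
        (mem_of_mem_erase hz')) m z₂.1 (fun z hz => ⟨(hmM z (mem_of_mem_erase hz)).1, by
          exact_mod_cast hmax2 z hz⟩)
      have hS : EE r (fun N => nc r (sP z₂ z₁) (yP z₂ N)) ≤
          2 / √Real.pi * (((z₁.1 : ℝ) - z₂.1) / √r) + ε := by
        rw [EE_nc']
        have hbe : be (sP z₂ z₁) ≤ Real.exp (δ * r) := by
          unfold be sP
          simp only
          rw [div_le_iff₀ (by positivity), mul_comm (Real.exp _)]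
          have := hb z₂ h2' z₁ h1 h21
          push_cast
          exact this
        have i1 := (abs_le.1 (hsurv r (by omega) (sP z₂ z₁) hbe)).2
        have e : lim r (sP z₂ z₁).1 = Erf (((sP z₂ z₁).1 : ℕ) / √(r : ℝ)) := lim_erf r (sP z₂ z₁).1
        have h9 : (((sP z₂ z₁).1 : ℕ) : ℝ) = (z₁.1 : ℝ) - z₂.1 := by
          show ((z₁.1 - z₂.1 : ℕ) : ℝ) = _
          rw [Nat.cast_sub h21]
        rw [h9] at e
        have h10 : (0 : ℝ) ≤ ((z₁.1 : ℝ) - z₂.1) / √r := by
          apply div_nonneg _ hsr.le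
          have : (z₂.1 : ℝ) ≤ z₁.1 := by exact_mod_cast h21
          linarith
        have h11 := Erf_le h10
        linarith
      have h3 : EE r (fun N => ((V.image (nx r N)).card : ℝ)) ≤
          EE r (fun N => (((V.erase z₁).image (nx r N)).card : ℝ) + nc r (sP z₂ z₁) (yP z₂ N)) :=
        EE_mono r fun N => card_step r N V h1 h2 h21
      rw [EE_add r (fun N => (((V.erase z₁).image (nx r N)).card : ℝ))] at h3
      have h4 : (((z₂.1 : ℝ) - m) / √r) + (((z₁.1 : ℝ) - z₂.1) / √r) ≤ (M - m) / √r := by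
        rw [← add_div]
        apply div_le_div_of_nonneg_right _ hsr.le
        have := (hmM z₁ h1).2
        linarith
      have h5 := mul_le_mul_of_nonneg_left h4 hc0.le
      push_cast
      rw [mul_add] at h5
      linarith
  rcases V.eq_empty_or_nonempty with rfl | hne
  · have h1 : ∀ N, (((∅ : Finset (ℕ × ℤ)).image (nx r N)).card : ℝ) = 0 := by
      intro N
      simp
    simp only [h1]
    rw [EE_const]
    have : 0 ≤ 2 / √Real.pi * (R / √r) := mul_nonneg hc0.le (div_nonneg hR hsr.le)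
    simp only [card_empty, Nat.cast_zero, mul_zero, add_zero]
    linarith
  · obtain ⟨z₀, h0, hmin⟩ := exists_min_image V (fun z => z.1) hne
    obtain ⟨z₁, h1, hmax⟩ := exists_max_image V (fun z => z.1) hne
    obtain ⟨n, hn⟩ : ∃ n, V.card = n + 1 := ⟨V.card - 1, by have := card_pos.2 hne; omega⟩
    have h2 := key n V hn hb z₀.1 z₁.1 (fun z hz => ⟨by exact_mod_cast hmin z hz,
      by exact_mod_cast hmax z hz⟩)
    have h3 := hlev z₀ h0 z₁ h1
    have h4 : ((z₁.1 : ℝ) - z₀.1) / √r ≤ R / √r := div_le_div_of_nonneg_right h3 hsr.le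
    have h5 := mul_le_mul_of_nonneg_left h4 hc0.le
    have h6 : ε * (n : ℝ) ≤ ε * V.card := by
      apply mul_le_mul_of_nonneg_left _ hε.le
      rw [hn]
      push_cast
      linarith
    linarith

end Pool.Agent.Q177.BT
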