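import Pool.Agent.Q77.BT.Base

/-!
# Project BT: the push to `M` and discs close to `M`
-/

set_option autoImplicit false

open MeasureTheory Set Metric Filter Topology
open scoped NNReal RealInnerProductSpace

namespace Pool.Agent.Q177.BT

open Pool.Agent.Q77.BT

variable {m n : ℕ}

theorem inner_off_left (ι : Fr m n) (v w : E n) : ⟪off ι v, w⟫ = ⟪v, off ι w⟫ := by
  have h1 : ⟪ι (ad ι v), w⟫ = ⟪ad ι v, ad ι w⟫ := by
    rw [real_inner_comm, ← inner_ad, real_inner_comm]
  rw [off_apply, off_apply, inner_sub_left, inner_sub_right, h1, inner_ad]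

/-- two projections -/
theorem off_sub_off (ι κ : Fr m n) {a : ℝ} (ha : 0 ≤ a) (h1 : ∀ p, ‖off ι (κ p)‖ ≤ a * ‖p‖)
    (h2 : ∀ p, ‖off κ (ι p)‖ ≤ a * ‖p‖) (v : E n) : ‖off ι v - off κ v‖ ≤ 2 * a * ‖v‖ := by
  have e1 : off ι v - off κ v = off ι (κ (ad κ v)) - ι (ad ι (off κ v)) := by
    have e2 : κ (ad κ v) = v - off κ v := by
      rw [off_apply]
      abel
    rw [e2, map_sub, off_apply ι (off κ v)]
    abel
  have e3 : ‖off ι (κ (ad κ v))‖ ≤ a * ‖v‖ :=
    (h1 _).trans (mul_le_mul_of_nonneg_left (norm_ad_le κ v) ha)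
  have e4 : ‖ad ι (off κ v)‖ ≤ a * ‖v‖ := by
    have e5 : ⟪ad ι (off κ v), ad ι (off κ v)⟫ ≤ ‖v‖ * (a * ‖ad ι (off κ v)‖) := by
      rw [inner_ad, inner_off_left]
      exact (real_inner_le_norm _ _).trans (mul_le_mul_of_nonneg_left (h2 _) (norm_nonneg _))
    rw [real_inner_self_eq_norm_sq] at e5
    by_contra h
    push Not at h
    have h0 : 0 ≤ a * ‖v‖ := by positivity
    nlinarith
  rw [e1]
  refine (norm_sub_le _ _).trans ?_
  rw [LinearIsometry.norm_map]
  linarith

/-- angle between two planes at two points -/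
theorem ang (ha : S_ANG) {M : Set (E n)} {δ R t : ℝ} (hδ : 0 < δ) (hA : AD m M δ R) (ht : 0 < t)
    (htR : t < R) {x y : E n} (hx : x ∈ M) {ι κ : Fr m n} (hι : Fl M x t δ ι)
    (hκ : Fl M y t δ κ) (hd : dist x y ≤ 4 / 5 * t) (p : E m) :
    ‖off κ (ι p)‖ ≤ 60 * δ * ‖p‖ := by
  have h1 : De M x t (1 / 1000) ι := by
    intro p hp
    exact hA x hx t ht htR ι hι p (by linarith)
  have h2 := ha m n M x t (1 / 1000) δ (2 * δ) κ ι ht (by norm_num) (by norm_num) h1 hι ?_ p
  · refine h2.trans (le_of_eq ?_)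
    ring
  · intro z hz hzx
    have e1 : ‖off κ (z - y)‖ ≤ δ * t := by
      apply hκ z hz
      have := dist_triangle z x y
      linarith
    have e2 : ‖off κ (x - y)‖ ≤ δ * t := by
      apply hκ x hx
      linarith
    have e3 : off κ (z - x) = off κ (z - y) - off κ (x - y) := by
      rw [← map_sub]
      congr 1
      abel
    rw [e3]
    refine (norm_sub_le _ _).trans ?_
    linarith

/-- convex combinations -/
theorem cvx {I : Type*} (T : Finset I) (c : I → ℝ) (hc : ∀ i, 0 ≤ c i) (f : I → E n) (a : E n)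
    (b : ℝ) (hS : 0 < ∑ i ∈ T, c i) (h : ∀ i ∈ T, 0 < c i → ‖f i - a‖ ≤ b) :
    ‖(∑ i ∈ T, c i)⁻¹ • (∑ i ∈ T, c i • f i) - a‖ ≤ b := by
  have e1 : (∑ i ∈ T, c i)⁻¹ • (∑ i ∈ T, c i • f i) - a =
      (∑ i ∈ T, c i)⁻¹ • ∑ i ∈ T, c i • (f i - a) := by
    have e2 : ∑ i ∈ T, c i • (f i - a) = (∑ i ∈ T, c i • f i) - (∑ i ∈ T, c i) • a := by
      rw [Finset.sum_smul, ← Finset.sum_sub_distrib]
      exact Finset.sum_congr rfl fun i _ => smul_sub _ _ _
    rw [e2, smul_sub, smul_smul, inv_mul_cancel₀ hS.ne', one_smul]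
  rw [e1, norm_smul, norm_inv, Real.norm_eq_abs, abs_of_pos hS, inv_mul_le_iff₀ hS]
  refine (norm_sum_le _ _).trans ?_
  rw [Finset.sum_mul]
  apply Finset.sum_le_sum
  intro i hi
  rw [norm_smul, Real.norm_eq_abs, abs_of_nonneg (hc i)]
  rcases (hc i).eq_or_lt with h0 | h0
  · rw [← h0, zero_mul, zero_mul]
  · exact mul_le_mul_of_nonneg_left (h i hi h0) h0.le

theorem push0 (ha : S_ANG) : S_PUSH := by
  intro m n M δ R hM hδ hδ' hL hA t ht htR
  have hcs : CompactSpace M := isCompact_iff_compactSpace.1 hM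
  obtain ⟨T0, -, hT0, hcov⟩ := (isCompact_univ (X := M)).finite_cover_balls
    (show 0 < t / 24 by positivity)
  have hL' : ∀ x : M, ∃ ι : Fr m n, Fl M (x : E n) t δ ι := fun x => hL x x.2 t ht htR
  choose ι hι using hL'
  obtain ⟨T, hT⟩ : ∃ T : Finset M, ∀ z ∈ M, ∃ x ∈ T, dist z (x : E n) < t / 24 := by
    refine ⟨hT0.toFinset, ?_⟩
    intro z hz
    have h1 := hcov (mem_univ (⟨z, hz⟩ : M))
    rw [mem_iUnion₂] at h1
    obtain ⟨x, hx, hzx⟩ := h1
    exact ⟨x, hT0.mem_toFinset.2 hx, hzx⟩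
  have hlc : ∀ x : M, Continuous fun w : E n => max 0 (t / 12 - dist w (x : E n)) := by
    intro x
    fun_prop
  have hPc : ∀ x : M, Continuous fun w : E n => (x : E n) + ι x (ad (ι x) (w - x)) := by
    intro x
    exact continuous_const.add ((ι x).continuous.comp ((ad (ι x)).continuous.comp
      (continuous_id.sub continuous_const)))
  have hpos : ∀ w z : E n, z ∈ M → dist w z ≤ t / 200 → ∃ x ∈ T,
      0 < max 0 (t / 12 - dist w (x : E n)) := by
    intro w z hz hwz
    obtain ⟨x, hx, hzx⟩ := hT z hz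
    refine ⟨x, hx, lt_max_of_lt_right ?_⟩
    have := dist_triangle w z x
    linarith
  have hS : ∀ w z : E n, z ∈ M → dist w z ≤ t / 200 →
      0 < ∑ x ∈ T, max 0 (t / 12 - dist w (x : E n)) := by
    intro w z hz hwz
    obtain ⟨x, hx, h0⟩ := hpos w z hz hwz
    exact Finset.sum_pos' (fun i _ => le_max_left _ _) ⟨x, hx, h0⟩
  refine ⟨fun w => (∑ x ∈ T, max 0 (t / 12 - dist w (x : E n)))⁻¹ •
    ∑ x ∈ T, max 0 (t / 12 - dist w (x : E n)) • ((x : E n) + ι x (ad (ι x) (w - x))), ?_, ?_⟩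
  · have h1 : ContinuousOn (fun w : E n => (∑ x ∈ T, max 0 (t / 12 - dist w (x : E n)))⁻¹)
        {w | ∃ z ∈ M, dist w z ≤ t / 200} := by
      apply ContinuousOn.inv₀
      · exact (continuous_finsetSum _ fun x _ => hlc x).continuousOn
      · rintro w ⟨z, hz, hwz⟩
        exact (hS w z hz hwz).ne'
    have h2 : ContinuousOn (fun w : E n => ∑ x ∈ T, max 0 (t / 12 - dist w (x : E n)) •
        ((x : E n) + ι x (ad (ι x) (w - x)))) {w | ∃ z ∈ M, dist w z ≤ t / 200} :=
      (continuous_finsetSum _ fun x _ => (hlc x).smul (hPc x)).continuousOn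
    exact h1.smul h2
  · rintro w ⟨z, hz, hwz⟩
    have hwz' : ‖w - z‖ ≤ t / 200 := by rwa [← dist_eq_norm]
    have hact : ∀ x : M, 0 < max 0 (t / 12 - dist w (x : E n)) → dist w (x : E n) ≤ t / 12 := by
      intro x hx
      rcases lt_max_iff.1 hx with h | h
      · exact absurd h (lt_irrefl _)
      · linarith
    have hzx : ∀ x : M, 0 < max 0 (t / 12 - dist w (x : E n)) →
        ‖off (ι x) (z - x)‖ ≤ δ * t := by
      intro x hx
      apply hι x z hz
      have h1 := hact x hx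
      have h2 := dist_triangle z w x
      rw [dist_comm z w] at h2
      linarith
    have hP : ∀ x : M, (x : E n) + ι x (ad (ι x) (w - x)) =
        w - off (ι x) (z - x) - off (ι x) (w - z) := by
      intro x
      have e1 : off (ι x) (w - x) = off (ι x) (z - x) + off (ι x) (w - z) := by
        rw [← map_add]
        congr 1
        abel
      have e2 := off_apply (ι x) (w - x)
      rw [e1] at e2
      have e3 : w - off (ι x) (z - x) - off (ι x) (w - z) =
          w - (off (ι x) (z - x) + off (ι x) (w - z)) := by abel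
      rw [e3, e2]
      abel
    constructor
    · rw [dist_eq_norm]
      apply cvx _ _ (fun i => le_max_left _ _) _ _ _ (hS w z hz hwz)
      intro x _ hx
      have e1 : (x : E n) + ι x (ad (ι x) (w - x)) - w =
          -(off (ι x) (z - x) + off (ι x) (w - z)) := by
        rw [hP]
        abel
      rw [e1, norm_neg]
      refine (norm_add_le _ _).trans ?_
      have e2 := hzx x hx
      have e3 := norm_off_le (ι x) (w - z)
      have e4 : δ * t ≤ 1 / 10 ^ 6 * t := mul_le_mul_of_nonneg_right hδ' ht.le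
      linarith
    · obtain ⟨j, hj, hj0⟩ := hpos w z hz hwz
      have hwj := hact j hj0
      obtain ⟨z', hz', hz1⟩ := hA j j.2 t ht htR (ι j) (hι j) (ad (ι j) (w - j)) (by
        refine (norm_ad_le _ _).trans ?_
        rw [← dist_eq_norm]
        linarith)
      refine ⟨z', hz', ?_⟩
      rw [dist_eq_norm]
      have e1 : ‖((∑ x ∈ T, max 0 (t / 12 - dist w (x : E n)))⁻¹ •
          ∑ x ∈ T, max 0 (t / 12 - dist w (x : E n)) • ((x : E n) + ι x (ad (ι x) (w - x)))) -
          ((j : E n) + ι j (ad (ι j) (w - j)))‖ ≤ 3 * δ * t := by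
        apply cvx _ _ (fun i => le_max_left _ _) _ _ _ (hS w z hz hwz)
        intro i _ hi
        have hwi := hact i hi
        have hij : dist (i : E n) (j : E n) ≤ 4 / 5 * t := by
          have h2 := dist_triangle (i : E n) w j
          rw [dist_comm (i : E n) w] at h2
          linarith
        have hji : dist (j : E n) (i : E n) ≤ 4 / 5 * t := by rwa [dist_comm]
        have e2 := off_sub_off (ι j) (ι i) (a := 60 * δ) (by positivity)
          (ang ha hδ hA ht htR i.2 (hι i) (hι j) hij)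
          (ang ha hδ hA ht htR j.2 (hι j) (hι i) hji) (w - z)
        have e3 : (i : E n) + ι i (ad (ι i) (w - i)) - ((j : E n) + ι j (ad (ι j) (w - j))) =
            off (ι j) (z - j) - off (ι i) (z - i) + (off (ι j) (w - z) - off (ι i) (w - z)) := by
          rw [hP, hP]
          abel
        rw [e3]
        refine (norm_add_le _ _).trans ?_
        have e4 := norm_sub_le (off (ι j) (z - j)) (off (ι i) (z - i))
        have e5 := hzx i hi
        have e6 := hzx j hj0
        have e7 : 2 * (60 * δ) * ‖w - z‖ ≤ 2 * (60 * δ) * (t / 200) :=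
          mul_le_mul_of_nonneg_left hwz' (by positivity)
        have e8 : 0 < δ * t := by positivity
        linarith
      have e2 : (∑ x ∈ T, max 0 (t / 12 - dist w (x : E n)))⁻¹ •
          (∑ x ∈ T, max 0 (t / 12 - dist w (x : E n)) • ((x : E n) + ι x (ad (ι x) (w - x)))) -
          z' = ((∑ x ∈ T, max 0 (t / 12 - dist w (x : E n)))⁻¹ •
          (∑ x ∈ T, max 0 (t / 12 - dist w (x : E n)) • ((x : E n) + ι x (ad (ι x) (w - x)))) -
          ((j : E n) + ι j (ad (ι j) (w - j)))) - (z' - j - ι j (ad (ι j) (w - j))) := by abel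
      rw [e2]
      refine (norm_sub_le _ _).trans ?_
      have e4 : δ * t ≤ 1 / 10 ^ 6 * t := mul_le_mul_of_nonneg_right hδ' ht.le
      linarith

/-- the push at scale `t` -/
theorem push (_hs : S_SYM) (ha : S_ANG) : S_PUSH := push0 ha

/-- the disc is close to `M` -/
theorem start (ha : S_ANG) {M : Set (E n)} {δ R r : ℝ} (hδ : 0 < δ) (hδ' : δ ≤ 1 / 10 ^ 6)
    (hL : LA m M δ R) (hA : AD m M δ R) {x : E n} (hx : x ∈ M) (hr : 0 < r) (hrR : r < R)
    {ι : Fr m n} (hι : Fl M x r δ ι) {q : E m} (hq : ‖q‖ ≤ 11 / 10 * r) :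
    ∃ z ∈ M, dist (x + ι q) z ≤ r / 200 := by
  have hq2 : ‖(1 / 2 : ℝ) • q‖ ≤ 11 / 20 * r := by
    rw [norm_smul, Real.norm_eq_abs, abs_of_pos (by norm_num)]
    linarith
  obtain ⟨x', hx', h1⟩ := hA x hx r hr hrR ι hι ((1 / 2 : ℝ) • q) (by linarith)
  obtain ⟨κ, hκ⟩ := hL x' hx' r hr hrR
  have hxx : dist x x' ≤ 4 / 5 * r := by
    rw [dist_eq_norm]
    have e1 : x - x' = -(x' - x - ι ((1 / 2 : ℝ) • q)) - ι ((1 / 2 : ℝ) • q) := by abel
    rw [e1]
    refine (norm_sub_le _ _).trans ?_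
    rw [norm_neg, LinearIsometry.norm_map]
    linarith
  have h2 := ang ha hδ hA hr hrR hx hι hκ hxx ((1 / 2 : ℝ) • q)
  have hv : x + ι q - x' = ι ((1 / 2 : ℝ) • q) - (x' - x - ι ((1 / 2 : ℝ) • q)) := by
    have : ι q = ι ((1 / 2 : ℝ) • q) + ι ((1 / 2 : ℝ) • q) := by
      rw [← map_add, ← add_smul]
      norm_num
    rw [this]
    abel
  have hv1 : ‖x + ι q - x'‖ ≤ 3 / 5 * r := by
    rw [hv]
    refine (norm_sub_le _ _).trans ?_
    rw [LinearIsometry.norm_map]
    linarith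
  obtain ⟨z, hz, h3⟩ := hA x' hx' r hr hrR κ hκ (ad κ (x + ι q - x'))
    ((norm_ad_le _ _).trans hv1)
  refine ⟨z, hz, ?_⟩
  rw [dist_eq_norm]
  have e1 : x + ι q - z = off κ (x + ι q - x') - (z - x' - κ (ad κ (x + ι q - x'))) := by
    rw [off_apply]
    abel
  have e2 : ‖off κ (x + ι q - x')‖ ≤ 60 * δ * (11 / 20 * r) + 1 / 1000 * r := by
    rw [hv, map_sub]
    refine (norm_sub_le _ _).trans ?_
    have e3 := norm_off_le κ (x' - x - ι ((1 / 2 : ℝ) • q))
    have e4 : 60 * δ * ‖(1 / 2 : ℝ) • q‖ ≤ 60 * δ * (11 / 20 * r) :=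
      mul_le_mul_of_nonneg_left hq2 (by positivity)
    linarith
  rw [e1]
  refine (norm_sub_le _ _).trans ?_
  have e4 : δ * r ≤ 1 / 10 ^ 6 * r := mul_le_mul_of_nonneg_right hδ' hr.le
  linarith

/-- a disc near the plane and arbitrarily close to `M` -/
theorem near (_hs : S_SYM) (ha : S_ANG) (hp : S_PUSH) : S_NEAR := by
  intro m n M δ R hM hδ hδ' hL hA x hx r hr hrR ι hι e he
  have key : ∀ K : ℕ, ∃ w : E m → E n, ContinuousOn w (closedBall 0 (11 / 10 * r)) ∧
      ∀ q : E m, ‖q‖ ≤ 11 / 10 * r → ‖w q - x - ι q‖ ≤ r / 50 * (1 - (1 / 2) ^ K) ∧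
        ∃ z ∈ M, dist (w q) z ≤ r * (1 / 2) ^ K / 200 := by
    intro K
    induction K with
    | zero =>
      refine ⟨fun q => x + ι q, (continuous_const.add ι.continuous).continuousOn, ?_⟩
      intro q hq
      obtain ⟨z, hz, h1⟩ := start ha hδ hδ' hL hA hx hr hrR hι hq
      refine ⟨?_, z, hz, ?_⟩
      · rw [add_sub_cancel_left, sub_self, norm_zero, pow_zero, sub_self, mul_zero]
      · rw [pow_zero, mul_one]
        exact h1
    | succ K ih =>
      obtain ⟨w, hw, hw1⟩ := ih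
      have hk : (0 : ℝ) < (1 / 2) ^ K := by positivity
      have hk1 : ((1 : ℝ) / 2) ^ K ≤ 1 := pow_le_one₀ (by norm_num) (by norm_num)
      have ht0 : 0 < r * (1 / 2) ^ K := by positivity
      have htR : r * (1 / 2) ^ K < R := by
        have : r * (1 / 2) ^ K ≤ r * 1 := mul_le_mul_of_nonneg_left hk1 hr.le
        linarith
      obtain ⟨Ψ, hΨ, hΨ1⟩ := hp m n M δ R hM hδ hδ' hL hA _ ht0 htR
      refine ⟨fun q => Ψ (w q), ?_, ?_⟩
      · refine hΨ.comp hw ?_
        intro q hq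
        rw [mem_closedBall_zero_iff] at hq
        exact (hw1 q hq).2
      · intro q hq
        obtain ⟨h1, h2⟩ := hw1 q hq
        obtain ⟨h3, z, hz, h4⟩ := hΨ1 (w q) h2
        refine ⟨?_, z, hz, ?_⟩
        · have e1 : Ψ (w q) - x - ι q = (Ψ (w q) - w q) + (w q - x - ι q) := by abel
          rw [e1]
          refine (norm_add_le _ _).trans ?_
          rw [← dist_eq_norm, pow_succ]
          linarith
        · refine h4.trans (le_of_eq ?_)
          rw [pow_succ]
          ring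
  obtain ⟨K, hK⟩ := exists_pow_lt_of_lt_one (show 0 < 200 * e / r by positivity)
    (show (1 / 2 : ℝ) < 1 by norm_num)
  obtain ⟨w, hw, hw1⟩ := key K
  refine ⟨w, hw, ?_⟩
  intro q hq
  obtain ⟨h1, z, hz, h2⟩ := hw1 q hq
  refine ⟨?_, z, hz, ?_⟩
  · have hk : (0 : ℝ) < (1 / 2) ^ K := by positivity
    have : r / 50 * (1 - (1 / 2) ^ K) ≤ r / 50 * 1 :=
      mul_le_mul_of_nonneg_left (by linarith) (by positivity)
    linarith
  · rw [lt_div_iff₀ hr] at hK
    linarith

end Pool.Agent.Q177.BT
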