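import Pool.Agent.Q74.BT.Stm3
import Pool.Agent.Q182.BT.Walk

/-! # Project BT part 3 (helper74), job WalkE (helper177): the mean of the largest displacement -/

set_option autoImplicit false

namespace Pool.Agent.Q177.BT

open Finset
open Pool.Agent.Q158.Pair (T)
open Pool.Agent.Q74.AR (oc bE bE_mono bE_add bE_mul oc_per)
open Pool.Agent.Q74.KP (EE EE_mono EE_add EE_mul EE_const EE_sum EE_nonneg oc_add)
open Pool.Agent.Q74.BL (nx EE_split T_add EE_oc)
open Pool.Agent.Q74.BT Pool.Agent.Q182.BT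

/-- the largest displacement between `s` and `t` -/
noncomputable def Dm (L s t : ℕ) (x : ℤ) : ℝ :=
  (((range L).sup fun j : ℕ =>
    ‖(oc t (x + j) : ℝ) - oc s (x + j) - ((t : ℝ) - s) / 2‖₊ : NNReal) : ℝ)

theorem Dm_nonneg (L s t : ℕ) (x : ℤ) : 0 ≤ Dm L s t x := NNReal.coe_nonneg _

theorem le_Dm {L s t : ℕ} {x : ℤ} {j : ℕ} (hj : j < L) :
    |(oc t (x + j) : ℝ) - oc s (x + j) - ((t : ℝ) - s) / 2| ≤ Dm L s t x := by
  have h := Finset.le_sup (f := fun j : ℕ =>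
    ‖(oc t (x + j) : ℝ) - oc s (x + j) - ((t : ℝ) - s) / 2‖₊) (mem_range.2 hj)
  have h2 := NNReal.coe_le_coe.2 h
  rwa [coe_nnnorm, Real.norm_eq_abs] at h2

theorem Dm_le {L s t : ℕ} {x : ℤ} {B : ℝ} (hB : 0 ≤ B)
    (h : ∀ j : ℕ, j < L → |(oc t (x + j) : ℝ) - oc s (x + j) - ((t : ℝ) - s) / 2| ≤ B) :
    Dm L s t x ≤ B := by
  unfold Dm
  rw [← Real.coe_toNNReal B hB, NNReal.coe_le_coe]
  refine Finset.sup_le fun j hj => ?_
  rw [← NNReal.coe_le_coe, Real.coe_toNNReal B hB, coe_nnnorm, Real.norm_eq_abs]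
  exact h j (mem_range.1 hj)

theorem Dm_per (L s t : ℕ) (hst : s ≤ t) (x j : ℤ) : Dm L s t (x + 2 ^ t * j) = Dm L s t x := by
  obtain ⟨d, rfl⟩ := Nat.exists_eq_add_of_le hst
  have e : ∀ i : ℕ, (oc (s + d) (x + 2 ^ (s + d) * j + i)) = oc (s + d) (x + i) ∧
      oc s (x + 2 ^ (s + d) * j + i) = oc s (x + i) := by
    intro i
    constructor
    · rw [show x + 2 ^ (s + d) * j + (i : ℤ) = (x + i) + 2 ^ (s + d) * j by ring, oc_per]
    · rw [show x + 2 ^ (s + d) * j + (i : ℤ) = (x + i) + 2 ^ s * (2 ^ d * j) by ring, oc_per]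
  unfold Dm
  congr 2
  funext i
  rw [(e i).1, (e i).2]

/-- the positive part, in the mean -/
theorem tailE (v : ℕ) (σ h : ℝ) (hσ : 0 < σ) :
    bE v (fun k => max (|(k : ℝ) - (v : ℝ) / 2| - h) 0) ≤
      2 * Real.exp (σ ^ 2 * v / 8 - σ * h) / σ := by
  have hexp : ∀ y : ℝ, y ≤ Real.exp (σ * y) / σ := by
    intro y
    rw [le_div_iff₀ hσ]
    have := Real.add_one_le_exp (σ * y)
    nlinarith
  have h1 : ∀ k : ℕ, max (|(k : ℝ) - (v : ℝ) / 2| - h) 0 ≤
      (Real.exp (-(σ * v / 2) - σ * h) / σ) * Real.exp (σ * k) +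
        (Real.exp (-(-σ * v / 2) - σ * h) / σ) * Real.exp (-σ * k) := by
    intro k
    have e1 : (Real.exp (-(σ * v / 2) - σ * h) / σ) * Real.exp (σ * k) =
        Real.exp (σ * ((k : ℝ) - (v : ℝ) / 2 - h)) / σ := by
      rw [div_mul_eq_mul_div, ← Real.exp_add]
      congr 2
      ring
    have e2 : (Real.exp (-(-σ * v / 2) - σ * h) / σ) * Real.exp (-σ * k) =
        Real.exp (σ * (-((k : ℝ) - (v : ℝ) / 2) - h)) / σ := by
      rw [div_mul_eq_mul_div, ← Real.exp_add]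
      congr 2
      ring
    rw [e1, e2]
    have p1 : 0 ≤ Real.exp (σ * ((k : ℝ) - (v : ℝ) / 2 - h)) / σ := by positivity
    have p2 : 0 ≤ Real.exp (σ * (-((k : ℝ) - (v : ℝ) / 2) - h)) / σ := by positivity
    have q1 := hexp ((k : ℝ) - (v : ℝ) / 2 - h)
    have q2 := hexp (-((k : ℝ) - (v : ℝ) / 2) - h)
    apply max_le
    · rcases le_total 0 ((k : ℝ) - (v : ℝ) / 2) with h3 | h3
      · rw [abs_of_nonneg h3]
        linarith
      · rw [abs_of_nonpos h3]
        linarith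
    · linarith
  refine (bE_mono v _ _ h1).trans ?_
  rw [bE_add v (fun k => (Real.exp (-(σ * v / 2) - σ * h) / σ) * Real.exp (σ * k)), bE_mul, bE_mul,
    bE_exp, bE_exp]
  have h2 := half_exp v σ
  have h3 := half_exp v (-σ)
  have h4 : Real.exp (-(σ * v / 2) - σ * h) / σ * ((1 + Real.exp σ) / 2) ^ v ≤
      Real.exp (σ ^ 2 * v / 8 - σ * h) / σ := by
    rw [div_mul_eq_mul_div]
    apply div_le_div_of_nonneg_right _ hσ.le
    rw [sub_eq_add_neg, Real.exp_add, sub_eq_add_neg, Real.exp_add, mul_right_comm]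
    exact mul_le_mul_of_nonneg_right h2 (Real.exp_pos _).le
  have h5 : Real.exp (-(-σ * v / 2) - σ * h) / σ * ((1 + Real.exp (-σ)) / 2) ^ v ≤
      Real.exp (σ ^ 2 * v / 8 - σ * h) / σ := by
    rw [div_mul_eq_mul_div]
    apply div_le_div_of_nonneg_right _ hσ.le
    rw [sub_eq_add_neg, Real.exp_add, sub_eq_add_neg, Real.exp_add, mul_right_comm]
    rw [neg_sq] at h3
    exact mul_le_mul_of_nonneg_right h3 (Real.exp_pos _).le
  have h6 : 2 * Real.exp (σ ^ 2 * v / 8 - σ * h) / σ =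
      Real.exp (σ ^ 2 * v / 8 - σ * h) / σ + Real.exp (σ ^ 2 * v / 8 - σ * h) / σ := by ring
  rw [h6]
  exact add_le_add h4 h5

/-- one stage -/
theorem stageE (L t' v : ℕ) (h σ : ℝ) (hh : 0 ≤ h) (hσ : 0 < σ) :
    EE (t' + v) (Dm L t' (t' + v)) ≤
      h + EE t' (fun x => ((VV L t' x).card : ℝ)) * (2 * Real.exp (σ ^ 2 * v / 8 - σ * h) / σ) := by
  classical
  have e0 : h + EE t' (fun x => ((VV L t' x).card : ℝ)) *
      (2 * Real.exp (σ ^ 2 * v / 8 - σ * h) / σ) =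
      EE t' (fun x => h + (2 * Real.exp (σ ^ 2 * v / 8 - σ * h) / σ) * ((VV L t' x).card : ℝ)) := by
    rw [EE_add t' (fun _ => h), EE_const, EE_mul]
    ring
  rw [EE_split, e0]
  refine EE_mono t' (fun x => ?_)
  have h1 : ∀ x' : ℤ, Dm L t' (t' + v) (2 ^ t' * x' + x) ≤
      h + ∑ z ∈ VV L t' x, max (|(oc v (3 ^ z.1 * x' + z.2) : ℝ) - (v : ℝ) / 2| - h) 0 := by
    intro x'
    have hs0 : ∀ z ∈ VV L t' x, 0 ≤ max (|(oc v (3 ^ z.1 * x' + z.2) : ℝ) - (v : ℝ) / 2| - h) 0 :=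
      fun z _ => le_max_right _ _
    apply Dm_le (add_nonneg hh (sum_nonneg hs0))
    intro j hj
    have hz : nx t' x (0, (j : ℤ)) ∈ VV L t' x := by
      unfold VV
      exact Finset.mem_image_of_mem _ (Finset.mem_range.mpr hj)
    have h5 := Finset.single_le_sum hs0 hz
    have e2 : 3 ^ (nx t' x (0, (j : ℤ))).1 * x' + (nx t' x (0, (j : ℤ))).2 =
        T^[t'] (x + j) + 3 ^ oc t' (x + j) * x' := by
      unfold nx
      simp only [pow_zero, one_mul, zero_add]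
      ring
    rw [e2] at h5
    have e1 : (2 ^ t' * x' + x + (j : ℤ)) = (x + j) + 2 ^ t' * x' := by ring
    rw [oc_add, e1, oc_per, T_add]
    push_cast
    have e3 : ((oc t' (x + j) : ℝ) + (oc v (T^[t'] (x + j) + 3 ^ oc t' (x + j) * x') : ℝ)) -
        (oc t' (x + j) : ℝ) - ((t' : ℝ) + v - t') / 2 =
        (oc v (T^[t'] (x + j) + 3 ^ oc t' (x + j) * x') : ℝ) - (v : ℝ) / 2 := by ring
    rw [e3]
    have h6 := le_max_left
      (|(oc v (T^[t'] (x + j) + 3 ^ oc t' (x + j) * x') : ℝ) - (v : ℝ) / 2| - h) 0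
    linarith
  refine (EE_mono v h1).trans ?_
  rw [EE_add v (fun _ => h), EE_const, EE_sum]
  have h4 : ∀ z ∈ VV L t' x, EE v (fun x' =>
      max (|(oc v (3 ^ z.1 * x' + z.2) : ℝ) - (v : ℝ) / 2| - h) 0) ≤
      2 * Real.exp (σ ^ 2 * v / 8 - σ * h) / σ := by
    intro z _
    rw [EE_oc v (fun k => max (|(k : ℝ) - (v : ℝ) / 2| - h) 0)]
    exact tailE v σ h hσ
  have h5 := Finset.sum_le_sum h4
  rw [Finset.sum_const, nsmul_eq_mul, mul_comm] at h5
  linarith

/-- one stage, with the bound of the mean number of forms -/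
theorem stageE' (L : ℕ) (l C : ℝ) (hl : 1 ≤ l) (hC : 0 < C) (t' v : ℕ) (hv : v ≤ t') (ht : 1 ≤ t')
    (htl : ((t' + v : ℕ) : ℝ) ≤ l ^ 2)
    (hM : EE t' (fun x => ((VV L t' x).card : ℝ) - 1) ≤ C * (l / √t')) :
    EE (t' + v) (Dm L t' (t' + v)) ≤
      √(l * √((t' + v : ℕ) : ℝ)) + (1 + 2 * C) * √((t' + v : ℕ) : ℝ) := by
  set t : ℝ := ((t' + v : ℕ) : ℝ) with htdef
  have ht0 : (0 : ℝ) < t := by rw [htdef]; exact_mod_cast (by omega : 0 < t' + v)
  have ht'0 : (0 : ℝ) < (t' : ℝ) := by exact_mod_cast (by omega : 0 < t')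
  have hvt : (v : ℝ) ≤ t / 2 := by
    rw [htdef]
    push_cast
    have : (v : ℝ) ≤ t' := by exact_mod_cast hv
    linarith
  have htt : t ≤ 4 * t' := by
    rw [htdef]
    push_cast
    have : (v : ℝ) ≤ t' := by exact_mod_cast hv
    linarith
  set h := √(l * √t) with hh
  have hh2 : h ^ 2 = l * √t := by
    rw [hh, Real.sq_sqrt (by positivity)]
  have hst : 0 < √t := Real.sqrt_pos.mpr ht0
  have hst2 : √t ^ 2 = t := Real.sq_sqrt ht0.le
  have hh0 : 0 < h := Real.sqrt_pos.2 (by positivity)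
  have hstl : √t ≤ l := by
    rw [show l = √(l ^ 2) by rw [Real.sqrt_sq (by linarith)]]
    exact Real.sqrt_le_sqrt htl
  have hth : √t ≤ h := by
    have : √t ^ 2 ≤ h ^ 2 := by
      rw [hh2]
      nlinarith
    exact (pow_le_pow_iff_left₀ hst.le hh0.le two_ne_zero).1 this
  have hσ : 0 < 8 * h / t := by positivity
  have h1 := stageE L t' v h (8 * h / t) hh0.le hσ
  refine h1.trans ?_
  have hcard : EE t' (fun x => ((VV L t' x).card : ℝ)) ≤ 1 + C * (l / √t') := by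
    have e : (fun x => ((VV L t' x).card : ℝ)) = fun x => (((VV L t' x).card : ℝ) - 1) + 1 := by
      funext x; ring
    rw [e, EE_add t' (fun x => ((VV L t' x).card : ℝ) - 1), EE_const]
    linarith
  have hsq : √t ≤ 2 * √t' := by
    rw [show (2 : ℝ) = √4 by rw [show (4 : ℝ) = 2 ^ 2 by norm_num, Real.sqrt_sq (by norm_num)],
      ← Real.sqrt_mul (by norm_num)]
    exact Real.sqrt_le_sqrt htt
  have hst' : 0 < √(t' : ℝ) := Real.sqrt_pos.mpr ht'0
  have hcard2 : EE t' (fun x => ((VV L t' x).card : ℝ)) ≤ 1 + 2 * C * (l / √t) := by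
    refine hcard.trans ?_
    have h2 : l / √t' ≤ 2 * (l / √t) := by
      rw [← mul_div_assoc, div_le_div_iff₀ hst' hst]
      nlinarith
    nlinarith
  have hexp : (8 * h / t) ^ 2 * v / 8 - 8 * h / t * h ≤ -(4 * (l / √t)) := by
    have e1 : (8 * h / t) ^ 2 * v / 8 ≤ (8 * h / t) ^ 2 * (t / 2) / 8 := by
      have : 0 ≤ (8 * h / t) ^ 2 := sq_nonneg _
      nlinarith
    have e2 : (8 * h / t) ^ 2 * (t / 2) / 8 - 8 * h / t * h = -(4 * (h ^ 2 / t)) := by
      field_simp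
      ring
    have e3 : h ^ 2 / t = l / √t := by
      rw [hh2]
      nth_rewrite 2 [← hst2]
      field_simp
    rw [e3] at e2
    linarith
  have hy : 0 < l / √t := by positivity
  have hy1 : 1 ≤ l / √t := by
    rw [le_div_iff₀ hst]
    linarith
  have h3 := numeric C (l / √t) hC hy
  have h4 : 2 * (1 + 2 * C) / (l / √t) ≤ 2 * (1 + 2 * C) := div_le_self (by positivity) hy1
  -- `1 / σ`
  have hinv : 1 / (8 * h / t) ≤ √t / 8 := by
    rw [one_div_div, div_le_div_iff₀ (by positivity) (by norm_num)]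
    have : t = √t * √t := (Real.mul_self_sqrt ht0.le).symm
    nlinarith [mul_le_mul_of_nonneg_left hth hst.le]
  have h5 : EE t' (fun x => ((VV L t' x).card : ℝ)) *
      (2 * Real.exp ((8 * h / t) ^ 2 * v / 8 - 8 * h / t * h) / (8 * h / t)) ≤
      2 * (1 + 2 * C) * (√t / 8) := by
    have h6 : EE t' (fun x => ((VV L t' x).card : ℝ)) *
        (2 * Real.exp ((8 * h / t) ^ 2 * v / 8 - 8 * h / t * h)) ≤ 2 * (1 + 2 * C) := by
      refine (mul_le_mul hcard2 (mul_le_mul_of_nonneg_left (Real.exp_le_exp.mpr hexp)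
        (by norm_num)) (by positivity) (by positivity)).trans ?_
      exact h3.trans h4
    calc _ = EE t' (fun x => ((VV L t' x).card : ℝ)) *
          (2 * Real.exp ((8 * h / t) ^ 2 * v / 8 - 8 * h / t * h)) * (1 / (8 * h / t)) := by ring
      _ ≤ 2 * (1 + 2 * C) * (√t / 8) :=
        mul_le_mul h6 hinv (by positivity) (by positivity)
  have h7 : 2 * (1 + 2 * C) * (√t / 8) ≤ (1 + 2 * C) * √t := by
    have : 0 ≤ (1 + 2 * C) * √t := by positivity
    nlinarith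
  linarith

/-- the chaining -/
theorem chainE (L : ℕ) (l C : ℝ) (hl : 1 ≤ l) (hC : 0 < C) (s : ℕ) (hs : 8 ≤ s)
    (hM : ∀ t : ℕ, s ≤ t → EE t (fun x => ((VV L t x).card : ℝ) - 1) ≤ C * (l / √t)) (t : ℕ)
    (hst : s ≤ t) (htl : (t : ℝ) ≤ l ^ 2) :
    EE t (Dm L s t) ≤ 8 * √(l * √(t : ℝ)) + 4 * (1 + 2 * C) * √(t : ℝ) := by
  induction t using Nat.strong_induction_on with
  | _ t ih =>
    have ht0 : (0 : ℝ) < (t : ℝ) := by exact_mod_cast (by omega : 0 < t)
    have hh0 : 0 ≤ √(l * √(t : ℝ)) := Real.sqrt_nonneg _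
    have hq0 : 0 ≤ (1 + 2 * C) * √(t : ℝ) := by positivity
    by_cases h2 : t ≤ 2 * s
    · obtain ⟨v, rfl⟩ := Nat.exists_eq_add_of_le hst
      have h3 := stageE' L l C hl hC s v (by omega) (by omega) htl (hM s le_rfl)
      linarith
    · push Not at h2
      obtain ⟨t', v, htv, hvt, hst', ht'⟩ : ∃ t' v : ℕ, t = t' + v ∧ v ≤ t' ∧ s ≤ t' ∧ 16 * t' ≤ 9 * t := by
        refine ⟨(t + 1) / 2, t - (t + 1) / 2, by omega, by omega, by omega, by omega⟩
      have hlt : t' < t := by omega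
      have ht'l : (t' : ℝ) ≤ l ^ 2 := by
        have : (t' : ℝ) ≤ t := by exact_mod_cast hlt.le
        linarith
      have h3 := ih t' hlt hst' ht'l
      have h4 := stageE' L l C hl hC t' v hvt (by omega) (htv ▸ htl) (hM t' hst')
      rw [← htv] at h4
      have h5 : EE t (Dm L s t') = EE t' (Dm L s t') := by
        conv_lhs => rw [htv]
        exact EE_up t' v _ (fun x j => Dm_per L s t' hst' x j)
      have hr : √(t' : ℝ) ≤ 3 / 4 * √(t : ℝ) := by
        rw [show (3 / 4 : ℝ) = √((3 / 4) ^ 2) by rw [Real.sqrt_sq (by norm_num)],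
          ← Real.sqrt_mul (by norm_num)]
        refine Real.sqrt_le_sqrt ?_
        have : (16 * t' : ℝ) ≤ 9 * t := by exact_mod_cast ht'
        linarith
      have hr2 : √(l * √(t' : ℝ)) ≤ 7 / 8 * √(l * √(t : ℝ)) := by
        rw [show (7 / 8 : ℝ) = √((7 / 8) ^ 2) by rw [Real.sqrt_sq (by norm_num)],
          ← Real.sqrt_mul (by norm_num)]
        refine Real.sqrt_le_sqrt ?_
        have : 0 ≤ l * √(t : ℝ) := by positivity
        nlinarith
      have h6 : EE t (Dm L s t) ≤ EE t (fun x => Dm L s t' x + Dm L t' t x) := by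
        refine EE_mono _ (fun x => ?_)
        apply Dm_le (add_nonneg (Dm_nonneg _ _ _ _) (Dm_nonneg _ _ _ _))
        intro j hj
        have e : (oc t (x + j) : ℝ) - oc s (x + j) - ((t : ℝ) - s) / 2 =
            ((oc t' (x + j) : ℝ) - oc s (x + j) - ((t' : ℝ) - s) / 2) +
            ((oc t (x + j) : ℝ) - oc t' (x + j) - ((t : ℝ) - t') / 2) := by ring
        rw [e]
        exact (abs_add_le _ _).trans (add_le_add (le_Dm hj) (le_Dm hj))
      rw [EE_add t (Dm L s t'), h5] at h6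
      have h9 : 4 * (1 + 2 * C) * √(t' : ℝ) ≤ 4 * (1 + 2 * C) * (3 / 4 * √(t : ℝ)) :=
        mul_le_mul_of_nonneg_left hr (by positivity)
      linarith

theorem walkE (h : S_Mean) : S_WalkE := by
  intro γ hγ ε hε
  obtain ⟨C, hC, hM⟩ := h γ hγ ε hε
  set d : ℝ := min (min ((ε / 16) ^ 2) (ε / (8 * (1 + 2 * C)))) 1 with hd
  have hd0 : 0 < d := by
    rw [hd]
    exact lt_min (lt_min (by positivity) (by positivity)) one_pos
  have hd1 : d ≤ (ε / 16) ^ 2 := (min_le_left _ _).trans (min_le_left _ _)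
  have hd2 : d ≤ ε / (8 * (1 + 2 * C)) := (min_le_left _ _).trans (min_le_right _ _)
  have hd3 : d ≤ 1 := min_le_right _ _
  refine ⟨d ^ 2, by positivity, 3, fun L hL s t hs hst ht => ?_⟩
  set l := Real.log L with hl
  have hl1 : 1 ≤ l := by
    rw [hl, Real.le_log_iff_exp_le (by exact_mod_cast (by omega : 0 < L))]
    have h3 : (3 : ℝ) ≤ L := by exact_mod_cast hL
    have := Real.exp_one_lt_d9
    linarith
  have hs8 : 8 ≤ s := by
    have h1 : (41 : ℝ) < γ + ε := by linarith [hγ.1]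
    have h2 : (41 : ℝ) ≤ s := by nlinarith
    have h3 : 41 ≤ s := by exact_mod_cast h2
    omega
  have htl : (t : ℝ) ≤ l ^ 2 := by
    have h1 : d ^ 2 ≤ 1 := pow_le_one₀ hd0.le hd3
    have h2 : 0 ≤ l ^ 2 := sq_nonneg _
    nlinarith
  have h1 := chainE L l C hl1 hC s hs8 (fun t' ht' => hM L t' (by omega) (by
    have : (s : ℝ) ≤ t' := by exact_mod_cast ht'
    linarith)) t hst htl
  have hl0 : 0 < l := by linarith
  have hsq : √(t : ℝ) ≤ d * l := by
    rw [show d * l = √((d * l) ^ 2) by rw [Real.sqrt_sq (by positivity)]]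
    refine Real.sqrt_le_sqrt ?_
    rw [mul_pow]
    exact ht
  have h2 : 8 * √(l * √(t : ℝ)) ≤ ε / 2 * l := by
    have h3 : √(l * √(t : ℝ)) ≤ ε / 16 * l := by
      rw [show ε / 16 * l = √((ε / 16 * l) ^ 2) by rw [Real.sqrt_sq (by positivity)]]
      refine Real.sqrt_le_sqrt ?_
      have h4 : l * √(t : ℝ) ≤ l * (d * l) := mul_le_mul_of_nonneg_left hsq hl0.le
      have h5 : l * (d * l) = d * l ^ 2 := by ring
      have h6 : d * l ^ 2 ≤ (ε / 16) ^ 2 * l ^ 2 := mul_le_mul_of_nonneg_right hd1 (sq_nonneg _)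
      rw [mul_pow]
      linarith
    linarith
  have h3 : 4 * (1 + 2 * C) * √(t : ℝ) ≤ ε / 2 * l := by
    have h5 : 4 * (1 + 2 * C) * √(t : ℝ) ≤ 4 * (1 + 2 * C) * (d * l) :=
      mul_le_mul_of_nonneg_left hsq (by positivity)
    have h6 : 4 * (1 + 2 * C) * d ≤ ε / 2 := by
      rw [le_div_iff₀ (by positivity)] at hd2
      linarith
    have h7 := mul_le_mul_of_nonneg_right h6 hl0.le
    linarith
  exact ⟨Dm L s t, Dm_nonneg L s t, fun x j hj => le_Dm hj, by linarith⟩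

end Pool.Agent.Q177.BT
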